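import Pool.Agent.Helper32.KD2.Basic
import Pool.Agent.Helper32.KD2.St.C2
import Pool.Agent.Helper32.KD2.St.C3

/-! KD2-C5: the averaged coefficients. -/

namespace KD.II.C5

open KD.II Finset MeasureTheory

theorem comp_integrable {d J : ℕ} (hd : 1 ≤ d) {s lam Lam : ℝ} (hs : 0 < s) {b : Vd d → ℝ}
    (hb : Adm lam Lam b) (c : ℝ) {l : Fin d → ℤ} (hl : l ∈ ThF d J) :
    IntegrableOn (fun w => b (c • w) * kw d s w) (cel d J l) := by
  have hm : Measurable fun w : Vd d => b (c • w) := hb.meas.comp (measurable_const_smul c)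
  refine Integrable.bdd_mul (c := max |lam| |Lam|) (cel_integrable hd hs hl)
    hm.aestronglyMeasurable (Filter.Eventually.of_forall fun w => ?_)
  rw [Real.norm_eq_abs]
  exact abs_le_max_abs_abs (hb.lo _) (hb.hi _)

theorem acf_lo {d J j : ℕ} (hd : 1 ≤ d) {s lam Lam : ℝ} (hs : 0 < s) {b : Vd d → ℝ}
    (hb : Adm lam Lam b) (h : ℝ) {l : Fin d → ℤ} (hl : l ∈ ThF d J) : lam ≤ acf s b h J j l := by
  unfold acf
  rw [le_div_iff₀ (mass_pos hd hs hl), mass, ← integral_const_mul]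
  exact integral_mono ((cel_integrable hd hs hl).const_mul lam) (comp_integrable hd hs hb _ hl)
    fun w => mul_le_mul_of_nonneg_right (hb.lo _) (kw_nonneg w)

theorem acf_hi {d J j : ℕ} (hd : 1 ≤ d) {s lam Lam : ℝ} (hs : 0 < s) {b : Vd d → ℝ}
    (hb : Adm lam Lam b) (h : ℝ) {l : Fin d → ℤ} (hl : l ∈ ThF d J) : acf s b h J j l ≤ Lam := by
  unfold acf
  rw [div_le_iff₀ (mass_pos hd hs hl), mass, ← integral_const_mul]
  exact integral_mono (comp_integrable hd hs hb _ hl) ((cel_integrable hd hs hl).const_mul Lam)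
    fun w => mul_le_mul_of_nonneg_right (hb.hi _) (kw_nonneg w)

theorem acf_neg {d J j : ℕ} {s lam Lam : ℝ} {b : Vd d → ℝ} (hb : Adm lam Lam b) (h : ℝ)
    (l : Fin d → ℤ) : acf s b h J j (-l) = acf s b h J j l := by
  unfold acf
  rw [mass_neg]
  congr 1
  have h0 := (Measure.measurePreserving_neg (volume : Measure (Vd d))).setIntegral_preimage_emb
    (MeasurableEquiv.neg (Vd d)).measurableEmbedding
    (fun w => b ((h * 2 ^ j) • w) * kw d s w) (cel d J (-l))
  have h1 : (Neg.neg ⁻¹' cel d J (-l) : Set (Vd d)) = cel d J l := by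
    ext w
    constructor
    · intro hw
      have := neg_mem_cel (l := -l) (w := -w) hw
      simpa using this
    · intro hw
      exact neg_mem_cel hw
  rw [h1] at h0
  rw [← h0]
  simp only [kw_neg, smul_neg, hb.even]

theorem acf_bv {d J : ℕ} (hd : 1 ≤ d) {s lam Lam M0 : ℝ} (hs : 0 < s) {b : Vd d → ℝ}
    (hb : Adm lam Lam b) {h : ℝ} (hh : 0 < h) (hh1 : h * 2 ^ (J + 1) ≤ 1)
    (hbv : ∀ w, ‖w‖ ≤ 1 → ∀ n : ℕ,
      ∑ j ∈ range n, |b ((1 / 2 : ℝ) ^ (j + 1) • w) - b ((1 / 2 : ℝ) ^ j • w)| ≤ M0)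
    {l : Fin d → ℤ} (hl : l ∈ ThF d J) :
    ∑ j ∈ range J, |acf s b h J (j + 1) l - acf s b h J j l| ≤ M0 := by
  have hm := mass_pos hd hs hl
  -- each difference
  have h1 : ∀ j, |acf s b h J (j + 1) l - acf s b h J j l| ≤
      (∫ w in cel d J l, |b ((h * 2 ^ (j + 1)) • w) - b ((h * 2 ^ j) • w)| * kw d s w) /
        mass d s J l := by
    intro j
    unfold acf
    rw [← sub_div, abs_div, abs_of_pos hm]
    refine div_le_div_of_nonneg_right ?_ hm.le
    rw [← integral_sub (comp_integrable hd hs hb _ hl) (comp_integrable hd hs hb _ hl)]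
    refine (abs_integral_le_integral_abs).trans (le_of_eq ?_)
    refine integral_congr_ae (Filter.Eventually.of_forall fun w => ?_)
    simp only
    rw [← sub_mul, abs_mul, abs_of_nonneg (kw_nonneg w)]
  have hint : ∀ j, IntegrableOn
      (fun w => |b ((h * 2 ^ (j + 1)) • w) - b ((h * 2 ^ j) • w)| * kw d s w) (cel d J l) := by
    intro j
    refine (((comp_integrable hd hs hb (h * 2 ^ (j + 1)) hl).sub
      (comp_integrable hd hs hb (h * 2 ^ j) hl)).abs).congr
      (Filter.Eventually.of_forall fun w => ?_)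
    simp only [Pi.sub_apply]
    rw [← sub_mul, abs_mul, abs_of_nonneg (kw_nonneg w)]
  refine (sum_le_sum fun j _ => h1 j).trans ?_
  rw [← sum_div, div_le_iff₀ hm, ← integral_finset_sum _ fun j _ => hint j, mass,
    ← integral_const_mul]
  refine setIntegral_mono_on (integrable_finset_sum _ fun j _ => hint j)
    ((cel_integrable hd hs hl).const_mul M0) (cel_meas l) fun w hw => ?_
  rw [← sum_mul]
  refine mul_le_mul_of_nonneg_right ?_ (kw_nonneg w)
  have hw2 : ‖w‖ < 2 := (cel_sub_ann hd hl hw).2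
  have hu : ‖(h * 2 ^ J) • w‖ ≤ 1 := by
    rw [norm_smul, Real.norm_of_nonneg (by positivity)]
    calc h * 2 ^ J * ‖w‖ ≤ h * 2 ^ J * 2 := by gcongr
      _ = h * 2 ^ (J + 1) := by ring
      _ ≤ 1 := hh1
  refine le_trans (le_of_eq ?_) (hbv _ hu J)
  rw [← sum_range_reflect]
  refine sum_congr rfl fun i hi => ?_
  rw [mem_range] at hi
  have e1 : (h * 2 ^ (J - 1 - i + 1)) • w = (1 / 2 : ℝ) ^ i • ((h * 2 ^ J) • w) := by
    rw [smul_smul]
    congr 1
    have : (2 : ℝ) ^ J = 2 ^ i * 2 ^ (J - 1 - i + 1) := by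
      rw [← pow_add]; congr 1; omega
    rw [this, one_div, inv_pow]
    field_simp
  have e2 : (h * 2 ^ (J - 1 - i)) • w = (1 / 2 : ℝ) ^ (i + 1) • ((h * 2 ^ J) • w) := by
    rw [smul_smul]
    congr 1
    have : (2 : ℝ) ^ J = 2 ^ (i + 1) * 2 ^ (J - 1 - i) := by
      rw [← pow_add]; congr 1; omega
    rw [this, one_div, inv_pow]
    field_simp
  rw [e1, e2, abs_sub_comm]

end KD.II.C5
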